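import Pool.Agent.R840.SR.G

/-!
# Sets of symmetric tensors of bounded symmetric rank are not closed in a long range of ranks

Let `m ≥ 3` and `k ≥ 3`.  For every `r` with `2 ≤ r < bound m k`, the set of degree `k` forms in
`m` variables which are sums of at most `r` terms `λ l ^ k`, `l` a linear form, is not closed: some
form of degree `k` which is not such a sum is a limit of such sums.  Here `bound m k` is

* `2 m - 1` if `k = 3`,
* `C(N + m - 2, m - 1) + C(N + m - 1, m - 1)` if `k = 2 N + 1 ≥ 5`,
* `2 C(N + m - 2, m - 1) + C(N + m - 3, m - 3)` if `k = 2 N`.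
-/

set_option autoImplicit false

namespace Pool.Agent.Results.MP_8e338d_ag.SubgenericRange

open MvPolynomial Filter Topology

/-- The form `F` of degree `k` in `m` variables (a symmetric tensor of order `k` on a space of
dimension `m`) is a sum of `r` terms `λ_i l_i ^ k`, with `λ_i` a complex number and `l_i` a linear
form (possibly zero). -/
def SymRankLE (m k r : ℕ) (F : MvPolynomial (Fin m) ℂ) : Prop :=
  ∃ (c : Fin r → ℂ) (l : Fin r → MvPolynomial (Fin m) ℂ),
    (∀ i, (l i).IsHomogeneous 1) ∧ F = ∑ i, C (c i) * l i ^ k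

/-- The bound for the number of terms. -/
def bound (m k : ℕ) : ℕ :=
  if k = 3 then 2 * m - 1
  else if Even k then 2 * (k / 2 + m - 2).choose (m - 1) + (k / 2 + m - 3).choose (m - 3)
  else (k / 2 + m - 2).choose (m - 1) + (k / 2 + m - 1).choose (m - 1)

/-- Let `m ≥ 3`, `k ≥ 3` and `2 ≤ r < bound m k`.  There is a form `F` of degree `k` in `m`
variables which is not a sum of `r` terms `λ l ^ k`, but whose coefficients are the limits of the
coefficients of forms which are sums of `r` such terms. -/
theorem result (m k r : ℕ) (hm : 3 ≤ m) (hk : 3 ≤ k) (h2 : 2 ≤ r) (hr : r < bound m k) :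
    ∃ F : MvPolynomial (Fin m) ℂ, F.IsHomogeneous k ∧ ¬ SymRankLE m k r F ∧
      ∃ G : ℕ → MvPolynomial (Fin m) ℂ, (∀ n, SymRankLE m k r (G n)) ∧
        ∀ s : Fin m →₀ ℕ, Tendsto (fun n => coeff s (G n)) atTop (𝓝 (coeff s F)) := by
  unfold bound at hr
  by_cases h3 : k = 3
  · rw [if_pos h3] at hr
    subst h3
    exact R840.SR.cubic_range h2 (by omega)
  · rw [if_neg h3] at hr
    rcases Nat.even_or_odd k with he | ho
    · rw [if_pos he] at hr
      obtain ⟨N, hN⟩ := he
      have hN2 : k = 2 * N := by omega
      subst hN2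
      rw [show 2 * N / 2 = N by omega] at hr
      exact R840.SR.even_range hm (by omega) h2 hr
    · rw [if_neg (Nat.not_even_iff_odd.2 ho)] at hr
      obtain ⟨N, hN⟩ := ho
      subst hN
      rw [show (2 * N + 1) / 2 = N by omega] at hr
      exact R840.SR.odd_range hm (by omega) h2 hr

end Pool.Agent.Results.MP_8e338d_ag.SubgenericRange
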